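import Pool.Agent.H95.SelS.Main

set_option autoImplicit false

namespace Pool.Agent.Results.MP_178837_lc.UnimodalScales

open Filter Topology

/-- `V n t` is the least worst-case number of comparisons needed to find, among `n` elements, the
element with exactly `t` smaller ones (`t = 0, …, n - 1`).
(1) For all `t` and `N` the inequality `V n t ≤ V n (t+1)` fails for at most
`t * (⌈log₂ N⌉ - 1)` of the numbers `n ≤ N`, and for at most `120 * t` of the numbers `n` in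
`(N, 2N]`.
(2) For all `N`, `k` and `s ≥ 1`, at most `23040 * k ^ 2 / s` of the numbers `n` in `(N, 2N]` have
`a, b` with `b < k`, `b - a ≥ s` and `V n b < V n a`.
(3) For all `N`, `k` and `s ≥ 1`, at most `34560 * k ^ 2 * (⌊log₂ s⌋ + 1) / s` of the numbers `n`
in `(N, 2N]` have `a < b < k` with `V n a - V n b ≥ s`.
(4) If `k(n)² = o(n)` then for almost all `n` (in the sense of natural density) the first `k(n)`
terms of the sequence `V n 0, …, V n (n-1)` are nondecreasing and its last `k(n)` terms are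
nonincreasing.
(5) If `ω(n) → ∞` then for almost all `n` one has `V n a ≤ V n b` and
`V n (n-1-a) ≤ V n (n-1-b)` for all `a < b < n` with
`(b+1)² (min(⌊log₂ (b-a)⌋, ⌊log₂ ⌊n/(b+1)⌋⌋) + 1)² ω(n) ≤ n (b-a)`.
(6) If `ω(n) → ∞` then for almost all `n`, whenever `a < b < n` and `d = V n a - V n b > 0`,
`n d ≤ ω(n) (b+1)² (⌊log₂ ⌊n/(b+1)⌋⌋ + 1)² (⌊log₂ d⌋ + 1)`.
(7) If `ω(n) → ∞` then for almost all `n` and all `1 ≤ K ≤ n`, the number of `t < K` with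
`V n (t+1) < V n t` is at most `ω(n) K² (⌊log₂ ⌊n/K⌋⌋ + 1)² / n`. -/
theorem result :
    ∀ V : (n : ℕ) → Fin n → ℕ,
      (V = fun n t => sInf {k : ℕ | ∃ (q : List Bool → Fin n × Fin n) (o : List Bool → Fin n),
          ∀ σ : Equiv.Perm (Fin n), ∀ h : List Bool, h.length = k →
            (∀ (i : ℕ) (hi : i < h.length),
              h[i]'hi = decide (σ (q (h.take i)).1 < σ (q (h.take i)).2)) →
            σ (o h) = t}) →
      (∀ t N : ℕ, {n : ℕ | n ≤ N ∧ ∃ h : t + 1 < n,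
          V n ⟨t + 1, h⟩ < V n ⟨t, Nat.lt_of_succ_lt h⟩}.ncard ≤ t * (Nat.clog 2 N - 1)) ∧
      (∀ t N : ℕ, {n : ℕ | N < n ∧ n ≤ 2 * N ∧ ∃ h : t + 1 < n,
          V n ⟨t + 1, h⟩ < V n ⟨t, Nat.lt_of_succ_lt h⟩}.ncard ≤ 120 * t) ∧
      (∀ N k s : ℕ, 1 ≤ s → {n : ℕ | N < n ∧ n ≤ 2 * N ∧ ∃ a b : Fin n,
          b.val < k ∧ a.val + s ≤ b.val ∧ V n b < V n a}.ncard * s ≤ 23040 * k ^ 2) ∧
      (∀ N k s : ℕ, 1 ≤ s → {n : ℕ | N < n ∧ n ≤ 2 * N ∧ ∃ a b : Fin n,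
          b.val < k ∧ a < b ∧ V n b + s ≤ V n a}.ncard * s ≤
            34560 * k ^ 2 * (Nat.log 2 s + 1)) ∧
      (∀ k : ℕ → ℕ, Tendsto (fun n : ℕ => (k n : ℝ) ^ 2 / n) atTop (𝓝 0) →
        Tendsto (fun N : ℕ => ({n : ℕ | n ≤ N ∧ ¬ ∀ a b : Fin n,
            (a ≤ b → b.val < k n → V n a ≤ V n b) ∧
            (a ≤ b → n ≤ a.val + k n → V n b ≤ V n a)}.ncard : ℝ) / N) atTop (𝓝 0)) ∧
      (∀ ω : ℕ → ℝ, Tendsto ω atTop atTop →
        Tendsto (fun N : ℕ => ({n : ℕ | n ≤ N ∧ ¬ ∀ a b : Fin n, a < b →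
            ((b.val : ℝ) + 1) ^ 2 * (((min (Nat.log 2 (b.val - a.val))
              (Nat.log 2 (n / (b.val + 1))) : ℕ) : ℝ) + 1) ^ 2 * ω n ≤
              n * ((b.val - a.val : ℕ) : ℝ) →
            V n a ≤ V n b ∧ V n a.rev ≤ V n b.rev}.ncard : ℝ) / N) atTop (𝓝 0)) ∧
      (∀ ω : ℕ → ℝ, Tendsto ω atTop atTop →
        Tendsto (fun N : ℕ => ({n : ℕ | n ≤ N ∧ ¬ ∀ a b : Fin n, a < b → V n b < V n a →
            n * ((V n a - V n b : ℕ) : ℝ) ≤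
              ω n * ((b.val : ℝ) + 1) ^ 2 * ((Nat.log 2 (n / (b.val + 1)) : ℝ) + 1) ^ 2 *
                ((Nat.log 2 (V n a - V n b) : ℝ) + 1)}.ncard : ℝ) / N) atTop (𝓝 0)) ∧
      (∀ ω : ℕ → ℝ, Tendsto ω atTop atTop →
        Tendsto (fun N : ℕ => ({n : ℕ | n ≤ N ∧ ¬ ∀ K : ℕ, 1 ≤ K → K ≤ n →
            ({t : ℕ | t < K ∧ ∃ h : t + 1 < n,
              V n ⟨t + 1, h⟩ < V n ⟨t, Nat.lt_of_succ_lt h⟩}.ncard : ℝ) * n ≤
            ω n * (K : ℝ) ^ 2 * ((Nat.log 2 (n / K) : ℝ) + 1) ^ 2}.ncard : ℝ) / N) atTop (𝓝 0)) :=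
  Pool.Agent.H95.SelS.main

end Pool.Agent.Results.MP_178837_lc.UnimodalScales
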